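import Pool.Agent.Run7.h900.MX.Stm

/-!
# Piece FRAT: the Frattini subgroup of a closed subgroup has finite index, under max
-/

universe u

namespace Run7.h950.MX

open Run7.h900.MX

/-- the subgroup of the `g` with `g x ^ i ∈ M` for some `i` -/
def adj {G : Type u} [Group G] (M : Subgroup G) (x : G)
    (hM : ∀ i : ℤ, ∀ h ∈ M, x ^ i * h * x ^ (-i) ∈ M) : Subgroup G where
  carrier := {g | ∃ i : ℤ, g * x ^ i ∈ M}
  one_mem' := ⟨0, by simp [M.one_mem]⟩
  mul_mem' := by
    rintro a b ⟨i, hi⟩ ⟨j, hj⟩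
    refine ⟨j + i, ?_⟩
    have h1 := M.mul_mem hi (hM (-i) _ hj)
    have e : a * x ^ i * (x ^ (-i) * (b * x ^ j) * x ^ (- -i)) = a * b * x ^ (j + i) := by
      rw [neg_neg, zpow_add]
      group
    rwa [e] at h1
  inv_mem' := by
    rintro a ⟨i, hi⟩
    refine ⟨-i, ?_⟩
    have h1 := hM i _ (M.inv_mem hi)
    have e : x ^ i * (a * x ^ i)⁻¹ * x ^ (-i) = a⁻¹ * x ^ (-i) := by
      group
    rwa [e] at h1

theorem t_FRAT : S_FRAT.{u} := by
  intro G _ _ _ _ _ _ hmax p hp P hP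
  set Φ : Subgroup G := (Phi p P).topologicalClosure with hΦ
  have hPhiP : Phi p P ≤ P := by
    rw [Phi, Subgroup.closure_le]
    rintro y (⟨a, ha, rfl⟩ | ⟨a, ha, b, hb, rfl⟩)
    · exact P.pow_mem ha p
    · exact P.mul_mem (P.mul_mem (P.mul_mem ha hb) (P.inv_mem ha)) (P.inv_mem hb)
  have hΦc : IsClosed (Φ : Set G) := Subgroup.isClosed_topologicalClosure _
  have hΦP : Φ ≤ P := Subgroup.topologicalClosure_minimal _ hPhiP hP
  have hPhiΦ : Phi p P ≤ Φ := Subgroup.le_topologicalClosure _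
  obtain ⟨M, hM, hMmax⟩ := hmax
    {H | IsClosed (H : Set G) ∧ Φ ≤ H ∧ H ≤ P ∧ Φ.relIndex H ≠ 0}
    ⟨Φ, hΦc, le_rfl, hΦP, by rw [Subgroup.relIndex_self]; exact one_ne_zero⟩ (fun H hH => hH.1)
  obtain ⟨hMc, hΦM, hMP, hMi⟩ := hM
  have hPM : P ≤ M := by
    intro x hx
    have hconj : ∀ g ∈ P, ∀ h ∈ M, g * h * g⁻¹ ∈ M := by
      intro g hg h hh
      have h1 : g * h * g⁻¹ * h⁻¹ ∈ M :=
        hΦM (hPhiΦ (Subgroup.subset_closure (Or.inr ⟨g, hg, h, hMP hh, rfl⟩)))
      have := M.mul_mem h1 hh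
      rwa [inv_mul_cancel_right] at this
    have hconj' : ∀ i : ℤ, ∀ h ∈ M, x ^ i * h * x ^ (-i) ∈ M := by
      intro i h hh
      have := hconj (x ^ i) (P.zpow_mem hx i) h hh
      rwa [← zpow_neg] at this
    have hxp : x ^ p ∈ M := hΦM (hPhiΦ (Subgroup.subset_closure (Or.inl ⟨x, hx, rfl⟩)))
    set H := adj M x hconj' with hH
    have hp0 : (p : ℤ) ≠ 0 := by exact_mod_cast hp.ne_zero
    have hmem : ∀ g : G, g ∈ H ↔ ∃ r : Fin p, g * x ^ (r : ℕ) ∈ M := by
      intro g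
      constructor
      · rintro ⟨i, hi⟩
        have hr0 : 0 ≤ i % p := Int.emod_nonneg _ hp0
        have hr1 : i % p < p := Int.emod_lt_of_pos _ (by exact_mod_cast hp.pos)
        refine ⟨⟨(i % p).toNat, by omega⟩, ?_⟩
        have e : g * x ^ (i % p).toNat = g * x ^ i * (x ^ p) ^ (-(i / p)) := by
          have e1 : x ^ (i % p).toNat = x ^ (i % p) := by
            rw [← zpow_natCast, Int.toNat_of_nonneg hr0]
          rw [e1, ← zpow_natCast x p, ← zpow_mul, mul_assoc, ← zpow_add]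
          congr 2
          have := Int.emod_add_mul_ediv i p
          linarith
        show g * x ^ (i % p).toNat ∈ M
        rw [e]
        exact M.mul_mem hi (M.zpow_mem hxp _)
      · rintro ⟨r, hr⟩
        exact ⟨(r : ℕ), by rw [zpow_natCast]; exact hr⟩
    have hHc : IsClosed (H : Set G) := by
      have : (H : Set G) = ⋃ r : Fin p, (fun g => g * x ^ (r : ℕ)) ⁻¹' (M : Set G) := by
        ext g
        rw [SetLike.mem_coe, hmem, Set.mem_iUnion]
        rfl
      rw [this]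
      exact isClosed_iUnion_of_finite fun r => hMc.preimage (continuous_mul_const _)
    have hMH : M ≤ H := fun g hg => ⟨0, by simpa using hg⟩
    have hxH : x ∈ H := ⟨-1, by simp [M.one_mem]⟩
    have hHP : H ≤ P := by
      rintro g ⟨i, hi⟩
      have := P.mul_mem (hMP hi) (P.zpow_mem hx (-i))
      rwa [zpow_neg, mul_inv_cancel_right] at this
    have hfin : M.relIndex H ≠ 0 := by
      rw [Subgroup.relIndex]
      have : Finite (H ⧸ M.subgroupOf H) := by
        let f : Fin p → H ⧸ M.subgroupOf H := fun r =>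
          QuotientGroup.mk ⟨x ^ (-((r : ℕ) : ℤ)), H.zpow_mem hxH _⟩
        apply Finite.of_surjective f
        intro q
        obtain ⟨⟨g, hg⟩, rfl⟩ := QuotientGroup.mk_surjective q
        obtain ⟨r, hr⟩ := (hmem g).1 hg
        refine ⟨r, ?_⟩
        rw [QuotientGroup.eq, Subgroup.mem_subgroupOf]
        have h1 := hconj' (r : ℕ) _ hr
        have e : x ^ ((r : ℕ) : ℤ) * (g * x ^ (r : ℕ)) * x ^ (-((r : ℕ) : ℤ)) =
            (x ^ (-((r : ℕ) : ℤ)))⁻¹ * g := by
          rw [zpow_neg, inv_inv, zpow_natCast]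
          group
        rw [e] at h1
        exact h1
      exact Subgroup.index_ne_zero_iff_finite.2 this
    have hHF := hMmax H ⟨hHc, hΦM.trans hMH, hHP, by
      rw [← Subgroup.relIndex_mul_relIndex Φ M H hΦM hMH]
      exact mul_ne_zero hMi hfin⟩ hMH
    rw [← hHF]
    exact hxH
  have hMP' : M = P := le_antisymm hMP hPM
  rw [hMP'] at hMi
  have hop : IsOpen ((Φ.subgroupOf P : Subgroup P) : Set P) := by
    have : (Φ.subgroupOf P).FiniteIndex := ⟨hMi⟩
    apply Subgroup.isOpen_of_isClosed_of_finiteIndex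
    exact hΦc.preimage continuous_subtype_val
  rw [isOpen_induced_iff] at hop
  obtain ⟨U, hU, hUe⟩ := hop
  have h1U : (1 : G) ∈ U := by
    have : (1 : P) ∈ Subtype.val ⁻¹' U := by
      rw [hUe]
      exact (Φ.subgroupOf P).one_mem
    exact this
  obtain ⟨N, hN⟩ := ProfiniteGrp.exist_openNormalSubgroup_sub_open_nhds_of_one hU h1U
  refine ⟨N, fun x hxN hxP => ?_⟩
  have h2 : (⟨x, hxP⟩ : P) ∈ Subtype.val ⁻¹' U := hN hxN
  rw [hUe] at h2
  exact Subgroup.mem_subgroupOf.1 h2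

end Run7.h950.MX
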